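import Pool.Agent.P.MP_29cb78_nt.F.All
import Pool.Agent.P.MP_29cb78_nt.D.Stark

/-!
The rank one abelian Stark conjecture for all complex cubic fields and all moduli.
-/

namespace Pool.Agent.Results.MP_29cb78_nt.CubicStark

open NumberField NumberField.InfinitePlace NumberField.Units
open scoped nonZeroDivisors

/-- `I` and `J` are in the same narrow ray class modulo `f`: `I = (x / y) J` with `y` prime to
`f`, `x ≡ y` modulo `f` and `x / y` totally positive. -/
def NarrowRayEq {k : Type} [Field k] (f I J : Ideal (𝓞 k)) : Prop :=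
  ∃ x y : 𝓞 k, IsCoprime (Ideal.span {y}) f ∧ x - y ∈ f ∧
    (∀ φ : k →+* ℝ, 0 < φ x * φ y) ∧ Ideal.span {y} * I = Ideal.span {x} * J

/-- The Dirichlet series `∑ N(𝔞) ^ (-s)` over the integral ideals `𝔞` in the narrow ray class of
`b` modulo `f`. -/
noncomputable def rayZeta {k : Type} [Field k] [NumberField k] (f b : Ideal (𝓞 k)) (s : ℂ) : ℂ :=
  LSeries (fun n =>
    (Nat.card {I : Ideal (𝓞 k) // NarrowRayEq f I b ∧ Ideal.absNorm I = n} : ℂ)) s

theorem result (k K : Type) [Field k] [Field K] [NumberField k] [NumberField K] [Algebra k K]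
    [IsGalois k K]
    -- `k` is a cubic field with one complex place
    (h3 : Module.finrank ℚ k = 3) (hc : nrComplexPlaces k = 1)
    -- the modulus `f ≠ 0, 1`
    (f : Ideal (𝓞 k)) (hf : f ≠ ⊥) (hf1 : f ≠ ⊤)
    -- `K` is the narrow ray class field modulo `f`: the Artin map `art` is a Frobenius at the
    -- primes that do not divide `f`, and its fibres are the narrow ray classes
    (art : (Ideal (𝓞 k))⁰ →* Gal(K/k))
    (hart : ∀ (P : (Ideal (𝓞 k))⁰) (Q : Ideal (𝓞 K)), Q.IsMaximal → Q.under (𝓞 k) = P →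
      ¬ f ≤ P → ∀ z : 𝓞 K, art P • z - z ^ Ideal.absNorm P.1 ∈ Q)
    (hker : ∀ I J : (Ideal (𝓞 k))⁰, IsCoprime I.1 f → IsCoprime J.1 f →
      (art I = art J ↔ NarrowRayEq f I J))
    -- an embedding above the complex place of `k`
    (φ : K →+* ℂ) (hφ : ¬ ComplexEmbedding.IsReal (φ.comp (algebraMap k K))) :
    ∃ u : (𝓞 K)ˣ,
      (∀ b : (Ideal (𝓞 k))⁰, IsCoprime b.1 f → ∃ Z : ℂ → ℂ, MeromorphicOn Z Set.univ ∧
        (∀ s : ℂ, 1 < s.re → Z s = rayZeta f b s) ∧ AnalyticAt ℂ Z 0 ∧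
        deriv Z 0 = -(1 / torsionOrder K * Real.log (‖φ (art b u)‖ ^ 2) : ℝ)) ∧
      (∀ ψ : K →+* ℂ, ComplexEmbedding.IsReal (ψ.comp (algebraMap k K)) → ‖ψ u‖ = 1) ∧
      ∀ x : AlgebraicClosure K, x ^ torsionOrder K = algebraMap K (AlgebraicClosure K) u →
        IsAbelianGalois k (IntermediateField.adjoin K {x}) := by
  open Pool.Agent.P.MP_29cb78_nt in
  obtain ⟨u, h1, h2⟩ := D.final F.inv_all k K h3 hc f hf hf1 art hart hker φ hφ
  refine ⟨u, fun b hb => ?_, h2⟩
  obtain ⟨Z, a, c, d, -, e⟩ := h1 b hb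
  exact ⟨Z, a, c, d, e⟩

end Pool.Agent.Results.MP_29cb78_nt.CubicStark
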