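import Pool.Agent.P.MP_29cb78_nt.Main

/-!
The rank one abelian Stark conjecture for ATR fields `k` that are quadratic over a subfield `k0`
and cyclic quartic extensions `K / k` that are dihedral over `k0`.
-/

namespace Pool.Agent.Results.MP_29cb78_nt.DihedralFour

open NumberField NumberField.InfinitePlace NumberField.Units
open scoped nonZeroDivisors

/-- The Dirichlet series `∑ N(𝔞) ^ (-s)` over the nonzero integral ideals `𝔞` of `k` that are
coprime to `f` and have Artin symbol `σ`. -/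
noncomputable def classZeta {k G : Type} [Field k] [NumberField k] [Group G] (f : Ideal (𝓞 k))
    (art : (Ideal (𝓞 k))⁰ →* G) (σ : G) (s : ℂ) : ℂ :=
  LSeries (fun n => (Nat.card {I : (Ideal (𝓞 k))⁰ //
    IsCoprime I.1 f ∧ art I = σ ∧ Ideal.absNorm I.1 = n} : ℂ)) s

theorem result (k0 k K : Type) [Field k0] [Field k] [Field K] [NumberField k0] [NumberField k]
    [NumberField K] [Algebra k0 k] [Algebra k0 K] [Algebra k K] [IsScalarTower k0 k K]
    [IsGalois k0 K]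
    -- `k` is an ATR field, quadratic over `k0`
    (hc : nrComplexPlaces k = 1) (hr : 1 ≤ nrRealPlaces k) (h2 : Module.finrank k0 k = 2)
    -- `K / k` is cyclic of degree four and `K / k0` is dihedral
    (hcyc : IsCyclic Gal(K/k)) (h4 : Module.finrank k K = 4)
    (hinv : ∀ g : Gal(K/k0), (∃ y : k, g (algebraMap k K y) ≠ algebraMap k K y) → g * g = 1)
    -- `K / k` is unramified at the primes not dividing `f`, with Artin map `art`
    (f : Ideal (𝓞 k)) (hf : f ≠ ⊥)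
    (hunr : ∀ (Q : Ideal (𝓞 K)) [Q.IsMaximal], ¬ f ≤ Q.under (𝓞 k) →
      Algebra.IsUnramifiedAt (𝓞 k) Q)
    (art : (Ideal (𝓞 k))⁰ →* Gal(K/k))
    (hart : ∀ (P : (Ideal (𝓞 k))⁰) (Q : Ideal (𝓞 K)), Q.IsMaximal → Q.under (𝓞 k) = P →
      ¬ f ≤ P → ∀ z : 𝓞 K, art P • z - z ^ Ideal.absNorm P.1 ∈ Q)
    -- an embedding above the complex place of `k`
    (φ : K →+* ℂ) (hφ : ¬ ComplexEmbedding.IsReal (φ.comp (algebraMap k K))) :
    ∃ u : (𝓞 K)ˣ,
      (∀ σ : Gal(K/k), ∃ Z : ℂ → ℂ, MeromorphicOn Z Set.univ ∧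
        (∀ s : ℂ, 1 < s.re → Z s = classZeta f art σ s) ∧ AnalyticAt ℂ Z 0 ∧
        deriv Z 0 = -(1 / torsionOrder K * Real.log (‖φ (σ u)‖ ^ 2) : ℝ)) ∧
      (∀ ψ : K →+* ℂ, ComplexEmbedding.IsReal (ψ.comp (algebraMap k K)) → ‖ψ u‖ = 1) ∧
      ∀ x : AlgebraicClosure K, x ^ torsionOrder K = algebraMap K (AlgebraicClosure K) u →
        IsAbelianGalois k (IntermediateField.adjoin K {x}) := by
  have : IsGalois k K := IsGalois.tower_top_of_isGalois k0 k K
  have hexp : ∀ σ : Gal(K/k), σ ^ 4 = 1 := fun σ => by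
    rw [← h4, ← IsGalois.card_aut_eq_finrank]
    exact pow_card_eq_one'
  obtain ⟨u, h1, h3⟩ :=
    Pool.Agent.P.MP_29cb78_nt.main h2 hc hr hinv hexp (Or.inl hcyc) hf hunr art hart hφ
  refine ⟨u, fun σ => ?_, h3⟩
  obtain ⟨Z, a, b, c, -, d⟩ := h1 σ
  exact ⟨Z, a, b, c, d⟩

end Pool.Agent.Results.MP_29cb78_nt.DihedralFour
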